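import Pool.Agent.Helper35.IL.Stm

/-!
Project IL (helper35), package LWS: the theorem of Lindemann and Weierstrass from the rank inequality.
-/

set_option autoImplicit false

namespace Pool.Agent.Helper68.IL

open Pool.Agent.Helper35.EM Pool.Agent.Helper56.SA Pool.Agent.Helper56.EM Pool.Agent.Helper56.NL
  Pool.Agent.Helper56.HS Pool.Agent.Helper35.IL Module Submodule Set

theorem lws : S_LWS := by
  intro hI hX K lam S P0 hP hR n α hα hl
  obtain ⟨f, hf, hai⟩ := hX hI K lam S P0 hR n α (by
    intro q hq
    have hc : ((∑ i, q i • α i : K) : ℂ) ∈ M.closure ∅ := by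
      rw [mem_cl]
      have : ∀ s : Finset (Fin n), ((∑ i ∈ s, q i • α i : K) : ℂ) ∈ clF ∅ := by
        intro s
        classical
        induction s using Finset.induction_on with
        | empty => simp
        | insert a s ha ih =>
          rw [Finset.sum_insert ha]
          have h1 : ((q a • α a : K) : ℂ) ∈ clF ∅ := by
            have h2 : ((q a • α a : K) : ℂ) = q a • (α a : ℂ) := rfl
            rw [h2]
            exact (clF ∅).smul_mem (mem_cl.1 (hα a))
          have h3 : ((q a • α a + ∑ i ∈ s, q i • α i : K) : ℂ) =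
              ((q a • α a : K) : ℂ) + ((∑ i ∈ s, q i • α i : K) : ℂ) := rfl
          rw [h3]
          exact (clF ∅).add_mem h1 ih
      exact this Finset.univ
    have h2 := hP _ hq hc
    have h3 : ((∑ i, q i • α i : K) : ℂ) = 0 := congrArg Prod.fst h2
    have h4 : (∑ i, q i • α i : K) = 0 := Subtype.ext h3
    exact funext (Fintype.linearIndependent_iff.1 hl q h4))
  have htr : ∀ i, f i ∉ M.closure ∅ := by
    intro i hi
    have h1 : IsAlgebraic ℚ (f i) := mem_cl_empty.1 hi
    exact hai.transcendental i (h1.extendScalars (FaithfulSMul.algebraMap_injective ℚ (clF S)))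
  have hex : ∀ i, ∃ j, Complex.exp (lam (α j)) = f i := by
    intro i
    rcases hf i with ⟨j, hj⟩ | ⟨j, hj⟩
    · exact absurd (hj ▸ hα j) (htr i)
    · exact ⟨j, hj⟩
  choose σ hσ using hex
  have hinj : Function.Injective σ := fun a b hab =>
    hai.injective ((hσ a).symm.trans ((congrArg (fun j => Complex.exp (lam (α j))) hab).trans (hσ b)))
  let τ := Equiv.ofBijective σ (Finite.injective_iff_bijective.1 hinj)
  have he : (fun i => Complex.exp (lam (α i))) = f ∘ τ.symm := by
    funext i
    have h1 := hσ (τ.symm i)
    have h2 : σ (τ.symm i) = i := τ.apply_symm_apply i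
    rw [h2] at h1
    exact h1
  rw [he]
  exact (hai.restrictScalars (FaithfulSMul.algebraMap_injective ℚ (clF S))).comp _ τ.symm.injective

end Pool.Agent.Helper68.IL
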